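import Mathlib

/-!
MP_134267_co, low degree range, BULK LEMMA (helper6, helper43): an expander of small maximum degree
has a path cover with few paths. Definitions shared by the two halves (Det.lean, Prob.lean) and the
assembly (Main.lean).
-/

namespace Pool.Agent.Bulk

open Finset

/-- the lists `P i` are the paths of a path cover of `G` -/
structure Cov {V ι : Type} [Fintype V] [Fintype ι] (G : SimpleGraph V) (P : ι → List V) :
    Prop where
  ne : ∀ i, P i ≠ []
  chain : ∀ i, (P i).IsChain G.Adj
  sum : ∑ i, ((P i : List V) : Multiset V) = (univ : Finset V).val

/-- a family of (nonempty) walks -/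
def Ok {V : Type} (G : SimpleGraph V) (L : Multiset (List V)) : Prop :=
  ∀ l ∈ L, l ≠ [] ∧ l.IsChain G.Adj

/-- multiset of the vertices of a family of lists -/
def vm {V : Type} (L : Multiset (List V)) : Multiset V :=
  (L.map (fun l : List V => (l : Multiset V))).sum

/-- an optimal path cover: the number of paths is minimal and among the covers with the same number
of paths the sum of the numbers `2 ^ length` is minimal -/
structure Opt {V ι : Type} [Fintype V] [Fintype ι] (G : SimpleGraph V) (P : ι → List V) :
    Prop where
  cov : Cov G P
  min : ∀ L : Multiset (List V), Ok G L → vm L = (univ : Finset V).val →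
    Fintype.card ι ≤ L.card
  ex : ∀ L : Multiset (List V), Ok G L → vm L = (univ : Finset V).val →
    L.card = Fintype.card ι →
    ∑ i, 2 ^ (P i).length ≤ (L.map (fun l : List V => 2 ^ l.length)).sum

end Pool.Agent.Bulk
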