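import Pool.Agent.Bulk.Defs

/-!
MP_134267_co, low degree range, BULK LEMMA, deterministic half (helper43): closures of the ends of
short paths of an optimal path cover under rotations inside a subfamily of the paths. Paths are
lists; an optimal cover has the minimal number of paths and then the minimal sum of `2 ^ length`.
-/

set_option autoImplicit false

namespace Pool.Agent.Bulk

open Finset

section lists

variable {V : Type}

/-- `a`, `b` are consecutive in `Q` (in one of the two orders) -/
def Nx (Q : List V) (a b : V) : Prop :=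
  (∃ l r, Q = l ++ a :: b :: r) ∨ (∃ l r, Q = l ++ b :: a :: r)

theorem Nx.reverse {Q : List V} {a b : V} (h : Nx Q.reverse a b) : Nx Q a b := by
  rcases h with ⟨l, r, h⟩ | ⟨l, r, h⟩
  · right
    refine ⟨r.reverse, l.reverse, ?_⟩
    rw [← List.reverse_reverse Q, h]
    simp
  · left
    refine ⟨r.reverse, l.reverse, ?_⟩
    rw [← List.reverse_reverse Q, h]
    simp

theorem cons_split {Q₁ Q₂ l r : List V} {a b : V} (h : Q₁ ++ Q₂ = l ++ a :: b :: r) :
    (∃ l' r', Q₁ = l' ++ a :: b :: r') ∨ (∃ l' r', Q₂ = l' ++ a :: b :: r') ∨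
      (Q₁.getLast? = some a ∧ Q₂.head? = some b) := by
  rcases List.append_eq_append_iff.mp h with ⟨m, h1, h2⟩ | ⟨m, h1, h2⟩
  · -- l = Q₁ ++ m, Q₂ = m ++ a :: b :: r
    exact Or.inr (Or.inl ⟨m, r, h2⟩)
  · -- Q₁ = l ++ m, a :: b :: r = m ++ Q₂
    match m, h1, h2 with
    | [], h1, h2 =>
      refine Or.inr (Or.inl ⟨[], r, ?_⟩)
      simpa using h2.symm
    | [y], h1, h2 =>
      refine Or.inr (Or.inr ?_)
      simp only [List.cons_append, List.nil_append, List.cons.injEq] at h2
      obtain ⟨rfl, h2⟩ := h2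
      subst h1
      rw [← h2]
      simp
    | y :: z :: m', h1, h2 =>
      left
      simp only [List.cons_append, List.cons.injEq] at h2
      obtain ⟨rfl, rfl, h2⟩ := h2
      exact ⟨l, m', h1⟩

theorem Nx.append {Q₁ Q₂ : List V} {a b : V} (h : Nx (Q₁ ++ Q₂) a b) :
    Nx Q₁ a b ∨ Nx Q₂ a b ∨ (Q₁.getLast? = some a ∧ Q₂.head? = some b) ∨
      (Q₁.getLast? = some b ∧ Q₂.head? = some a) := by
  rcases h with ⟨l, r, h⟩ | ⟨l, r, h⟩
  · rcases cons_split h with h | h | h
    · exact Or.inl (Or.inl h)
    · exact Or.inr (Or.inl (Or.inl h))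
    · exact Or.inr (Or.inr (Or.inl h))
  · rcases cons_split h with h | h | h
    · exact Or.inl (Or.inr h)
    · exact Or.inr (Or.inl (Or.inr h))
    · exact Or.inr (Or.inr (Or.inr h))

theorem Nx.append_left {Q₁ Q₂ : List V} {a b : V} (h : Nx Q₁ a b) : Nx (Q₁ ++ Q₂) a b := by
  rcases h with ⟨l, r, rfl⟩ | ⟨l, r, rfl⟩
  · exact Or.inl ⟨l, r ++ Q₂, by simp⟩
  · exact Or.inr ⟨l, r ++ Q₂, by simp⟩

theorem Nx.append_right {Q₁ Q₂ : List V} {a b : V} (h : Nx Q₂ a b) : Nx (Q₁ ++ Q₂) a b := by
  rcases h with ⟨l, r, rfl⟩ | ⟨l, r, rfl⟩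
  · exact Or.inl ⟨Q₁ ++ l, r, by simp⟩
  · exact Or.inr ⟨Q₁ ++ l, r, by simp⟩

theorem Nx.adj {G : SimpleGraph V} {Q : List V} {a b : V} (h : Nx Q a b)
    (hQ : Q.IsChain G.Adj) : G.Adj a b := by
  rcases h with ⟨l, r, rfl⟩ | ⟨l, r, rfl⟩
  · have := (List.isChain_append.mp hQ).2.1
    simp at this
    exact this.1
  · have := (List.isChain_append.mp hQ).2.1
    simp at this
    exact this.1.symm

theorem chain_reverse {G : SimpleGraph V} {Q : List V} (hQ : Q.IsChain G.Adj) :
    Q.reverse.IsChain G.Adj := by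
  rw [List.isChain_reverse]
  exact hQ.imp (fun a b h => h.symm)

end lists


section step

variable {V : Type}

/-- a rotation: the current path is `c` (its head is the free end), the other paths are `R` -/
inductive Step (G : SimpleGraph V) :
    List V → Multiset (List V) → List V → Multiset (List V) → Prop
  | own (x w w' : V) (l r : List V) (R : Multiset (List V)) (h : (l ++ [w']).head? = some x)
      (hadj : G.Adj x w) : Step G (l ++ w' :: w :: r) R ((l ++ [w']).reverse ++ w :: r) R
  | other (x w w' : V) (t l r Q : List V) (R : Multiset (List V)) (hadj : G.Adj x w)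
      (hQ : Q = l ++ w' :: w :: r ∨ Q.reverse = l ++ w' :: w :: r) :
      Step G (x :: t) (Q ::ₘ R) (l ++ [w']).reverse (((x :: t).reverse ++ w :: r) ::ₘ R)

theorem vm_cons (Q : List V) (L : Multiset (List V)) : vm (Q ::ₘ L) = (Q : Multiset V) + vm L := by
  simp [vm]

theorem vm_add (L L' : Multiset (List V)) : vm (L + L') = vm L + vm L' := by
  simp [vm]

theorem Step.ok {G : SimpleGraph V} {c c' : List V} {R R' : Multiset (List V)}
    (h : Step G c R c' R') (hok : Ok G (c ::ₘ R)) : Ok G (c' ::ₘ R') := by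
  cases h with
  | own x w w' l r _ hx hadj =>
    intro Q hQ
    rw [Multiset.mem_cons] at hQ
    rcases hQ with rfl | hQ
    · refine ⟨by simp, ?_⟩
      have h1 := (hok _ (Multiset.mem_cons_self _ _)).2
      have h2 : (l ++ [w'] ++ w :: r).IsChain G.Adj := by simpa using h1
      rw [List.isChain_append] at h2 ⊢
      refine ⟨chain_reverse h2.1, h2.2.1, ?_⟩
      intro a ha b hb
      rw [List.getLast?_reverse, hx] at ha
      simp at ha hb
      subst ha hb
      exact hadj
    · exact hok Q (Multiset.mem_cons_of_mem hQ)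
  | other x w w' t l r Q₀ R hadj hQ₀ =>
    have h1 : (l ++ w' :: w :: r).IsChain G.Adj := by
      have h0 := (hok Q₀ (by simp)).2
      rcases hQ₀ with h | h
      · rwa [← h]
      · rw [← h]; exact chain_reverse h0
    have h2 : (l ++ [w'] ++ w :: r).IsChain G.Adj := by simpa using h1
    have h3 := (hok (x :: t) (by simp)).2
    intro Q hQ
    simp only [Multiset.mem_cons] at hQ
    rcases hQ with rfl | rfl | hQ
    · exact ⟨by simp, chain_reverse (List.isChain_append.mp h2).1⟩
    · refine ⟨by simp, ?_⟩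
      rw [List.isChain_append]
      refine ⟨chain_reverse h3, (List.isChain_append.mp h2).2.1, ?_⟩
      intro a ha b hb
      simp at ha hb
      subst ha hb
      exact hadj
    · exact hok Q (by simp [hQ])

theorem Step.vm {G : SimpleGraph V} {c c' : List V} {R R' : Multiset (List V)}
    (h : Step G c R c' R') : vm (c' ::ₘ R') = vm (c ::ₘ R) := by
  cases h with
  | own x w w' l r _ hx hadj =>
    rw [vm_cons, vm_cons]
    congr 1
    rw [Multiset.coe_eq_coe]
    have : l ++ w' :: w :: r = (l ++ [w']) ++ w :: r := by simp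
    rw [this]
    exact List.Perm.append_right _ (List.reverse_perm _)
  | other x w w' t l r Q₀ R hadj hQ₀ =>
    rw [vm_cons, vm_cons, vm_cons, vm_cons]
    have h0 : (Q₀ : Multiset V) = ((l ++ w' :: w :: r : List V) : Multiset V) := by
      rcases hQ₀ with h | h
      · rw [h]
      · rw [← h, Multiset.coe_reverse]
    rw [h0, ← add_assoc, ← add_assoc]
    congr 1
    rw [Multiset.coe_add, Multiset.coe_add, Multiset.coe_eq_coe]
    have : l ++ w' :: w :: r = (l ++ [w']) ++ w :: r := by simp
    rw [this]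
    have e1 : ((l ++ [w']).reverse ++ ((x :: t).reverse ++ w :: r)).Perm
        ((l ++ [w']) ++ ((x :: t) ++ w :: r)) :=
      (List.reverse_perm _).append ((List.reverse_perm _).append_right _)
    refine e1.trans ?_
    rw [← List.append_assoc, ← List.append_assoc]
    exact List.Perm.append_right _ List.perm_append_comm

theorem Step.card {G : SimpleGraph V} {c c' : List V} {R R' : Multiset (List V)}
    (h : Step G c R c' R') : R'.card = R.card := by
  cases h <;> simp

/-- the neighbours after a rotation -/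
theorem Step.nx {G : SimpleGraph V} {c c' : List V} {R R' : Multiset (List V)}
    (h : Step G c R c' R') : ∃ x w w', c.head? = some x ∧ c'.head? = some w' ∧ G.Adj x w ∧
      (∃ Q ∈ c ::ₘ R, Nx Q w w') ∧
      ∀ Q' ∈ c' ::ₘ R', ∀ a b, Nx Q' a b → (∃ Q ∈ c ::ₘ R, Nx Q a b) ∨ (a = x ∧ b = w) ∨
        (a = w ∧ b = x) := by
  cases h with
  | own x w w' l r _ hx hadj =>
    refine ⟨x, w, w', ?_, ?_, hadj, ?_, ?_⟩
    · cases l with
      | nil => simpa using hx
      | cons y l => simpa using hx
    · simp
    · exact ⟨_, Multiset.mem_cons_self _ _, Or.inr ⟨l, r, rfl⟩⟩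
    · intro Q' hQ' a b hab
      rw [Multiset.mem_cons] at hQ'
      rcases hQ' with rfl | hQ'
      · have e : l ++ w' :: w :: r = (l ++ [w']) ++ w :: r := by simp
        rcases hab.append with h | h | h | h
        · exact Or.inl ⟨_, Multiset.mem_cons_self _ _, by rw [e]; exact h.reverse.append_left⟩
        · exact Or.inl ⟨_, Multiset.mem_cons_self _ _, by rw [e]; exact h.append_right⟩
        · obtain ⟨h1, h2⟩ := h
          rw [List.getLast?_reverse, hx] at h1
          simp at h1 h2
          exact Or.inr (Or.inl ⟨h1.symm, h2.symm⟩)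
        · obtain ⟨h1, h2⟩ := h
          rw [List.getLast?_reverse, hx] at h1
          simp at h1 h2
          exact Or.inr (Or.inr ⟨h2.symm, h1.symm⟩)
      · exact Or.inl ⟨Q', Multiset.mem_cons_of_mem hQ', hab⟩
  | other x w w' t l r Q₀ R hadj hQ₀ =>
    have e : l ++ w' :: w :: r = (l ++ [w']) ++ w :: r := by simp
    have key : ∀ a b, Nx (l ++ w' :: w :: r) a b → Nx Q₀ a b := by
      intro a b hab
      rcases hQ₀ with h | h
      · rwa [h]
      · rw [← h] at hab; exact hab.reverse
    refine ⟨x, w, w', by simp, by simp, hadj, ?_, ?_⟩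
    · exact ⟨Q₀, by simp, key _ _ (Or.inr ⟨l, r, rfl⟩)⟩
    · intro Q' hQ' a b hab
      simp only [Multiset.mem_cons] at hQ'
      rcases hQ' with rfl | rfl | hQ'
      · exact Or.inl ⟨Q₀, by simp, key _ _ (by rw [e]; exact hab.reverse.append_left)⟩
      · rcases hab.append with h | h | h | h
        · exact Or.inl ⟨x :: t, by simp, h.reverse⟩
        · exact Or.inl ⟨Q₀, by simp, key _ _ (by rw [e]; exact h.append_right)⟩
        · obtain ⟨h1, h2⟩ := h
          simp at h1 h2
          exact Or.inr (Or.inl ⟨h1.symm, h2.symm⟩)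
        · obtain ⟨h1, h2⟩ := h
          simp at h1 h2
          exact Or.inr (Or.inr ⟨h2.symm, h1.symm⟩)
      · exact Or.inl ⟨Q', by simp [hQ'], hab⟩

end step

section opt

variable {V ι : Type} [Fintype V] [Fintype ι] [DecidableEq ι]

omit [Fintype V] [Fintype ι] [DecidableEq ι] in
theorem vm_map (P : ι → List V) (B : Finset ι) :
    vm (B.val.map P) = ∑ i ∈ B, ((P i : List V) : Multiset V) := by
  unfold vm
  rw [Multiset.map_map]
  rfl

theorem Opt.fill {G : SimpleGraph V} {P : ι → List V} (hP : Opt G P) (B : Finset ι)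
    (L : Multiset (List V)) (hok : Ok G L) (hsum : vm L = ∑ i ∈ B, ((P i : List V) : Multiset V)) :
    Ok G (L + (univ \ B).val.map P) ∧ vm (L + (univ \ B).val.map P) = (univ : Finset V).val := by
  constructor
  · intro l hl
    rw [Multiset.mem_add] at hl
    rcases hl with hl | hl
    · exact hok l hl
    · rw [Multiset.mem_map] at hl
      obtain ⟨i, -, rfl⟩ := hl
      exact ⟨hP.cov.ne i, hP.cov.chain i⟩
  · rw [vm_add, vm_map, hsum, ← hP.cov.sum]
    rw [add_comm]
    exact Finset.sum_sdiff (Finset.subset_univ B)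

theorem Opt.card_le {G : SimpleGraph V} {P : ι → List V} (hP : Opt G P) (B : Finset ι)
    (L : Multiset (List V)) (hok : Ok G L) (hsum : vm L = ∑ i ∈ B, ((P i : List V) : Multiset V)) :
    B.card ≤ L.card := by
  obtain ⟨h1, h2⟩ := hP.fill B L hok hsum
  have h3 := hP.min _ h1 h2
  rw [Multiset.card_add, Multiset.card_map, Finset.card_val, Finset.card_sdiff_of_subset
    (Finset.subset_univ B), Finset.card_univ] at h3
  have h4 : B.card ≤ Fintype.card ι := Finset.card_le_univ B
  omega

theorem Opt.ex_le {G : SimpleGraph V} {P : ι → List V} (hP : Opt G P) (B : Finset ι)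
    (L : Multiset (List V)) (hok : Ok G L) (hsum : vm L = ∑ i ∈ B, ((P i : List V) : Multiset V))
    (hcard : L.card = B.card) :
    ∑ i ∈ B, 2 ^ (P i).length ≤ (L.map (fun l : List V => 2 ^ l.length)).sum := by
  obtain ⟨h1, h2⟩ := hP.fill B L hok hsum
  have h4 : B.card ≤ Fintype.card ι := Finset.card_le_univ B
  have h3 := hP.ex _ h1 h2 (by
    rw [Multiset.card_add, Multiset.card_map, Finset.card_val, Finset.card_sdiff_of_subset
      (Finset.subset_univ B), Finset.card_univ, hcard]
    omega)
  rw [Multiset.map_add, Multiset.sum_add, Multiset.map_map] at h3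
  rw [← Finset.sum_sdiff (Finset.subset_univ B)] at h3
  have h5 : (Multiset.map ((fun l : List V => 2 ^ l.length) ∘ P) (univ \ B).val).sum =
      ∑ i ∈ univ \ B, 2 ^ (P i).length := rfl
  rw [h5] at h3
  omega

/-- two heads of different paths of a family are never adjacent (the family would have one path
too many) -/
theorem Opt.no_merge {G : SimpleGraph V} {P : ι → List V} (hP : Opt G P) (B : Finset ι)
    (c Q : List V) (R : Multiset (List V)) (hok : Ok G (c ::ₘ Q ::ₘ R))
    (hsum : vm (c ::ₘ Q ::ₘ R) = ∑ i ∈ B, ((P i : List V) : Multiset V))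
    (hcard : (c ::ₘ Q ::ₘ R).card = B.card) (x y : V) (hx : c.head? = some x)
    (hy : Q.head? = some y) : ¬ G.Adj x y := by
  intro hadj
  have h1 : Ok G ((c.reverse ++ Q) ::ₘ R) := by
    intro l hl
    rw [Multiset.mem_cons] at hl
    rcases hl with rfl | hl
    · have hc := hok c (by simp)
      have hQ := hok Q (by simp)
      refine ⟨by simp [hc.1], ?_⟩
      rw [List.isChain_append]
      refine ⟨chain_reverse hc.2, hQ.2, ?_⟩
      intro a ha b hb
      rw [List.getLast?_reverse, hx] at ha
      rw [hy] at hb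
      simp at ha hb
      subst ha hb
      exact hadj
    · exact hok l (by simp [hl])
  have h2 : vm ((c.reverse ++ Q) ::ₘ R) = vm (c ::ₘ Q ::ₘ R) := by
    rw [vm_cons, vm_cons, vm_cons, ← add_assoc, Multiset.coe_add]
    congr 1
    rw [Multiset.coe_eq_coe]
    exact List.Perm.append_right _ (List.reverse_perm _)
  have h3 := hP.card_le B _ h1 (h2.trans hsum)
  simp at h3 hcard
  omega

omit [Fintype V] in
theorem sum_two_pow_lt (L : Multiset (List V)) (hL : ∀ l ∈ L, l ≠ []) :
    (L.map (fun l : List V => 2 ^ l.length)).sum < 2 ^ ((vm L).card + 1) := by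
  induction L using Multiset.induction with
  | empty => simp [vm]
  | cons a L ih =>
    have h1 := ih (fun l hl => hL l (Multiset.mem_cons_of_mem hl))
    have h2 : 1 ≤ a.length := by
      have := hL a (Multiset.mem_cons_self _ _)
      exact List.length_pos_iff.mpr this
    rw [vm_cons, Multiset.map_cons, Multiset.sum_cons, Multiset.card_add, Multiset.coe_card]
    have h3 : 2 ^ a.length ≤ 2 ^ (a.length + (vm L).card) :=
      Nat.pow_le_pow_right (by norm_num) (by omega)
    have h4 : 2 ^ ((vm L).card + 1) ≤ 2 ^ (a.length + (vm L).card) :=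
      Nat.pow_le_pow_right (by norm_num) (by omega)
    have h5 : 2 ^ (a.length + (vm L).card + 1) = 2 ^ (a.length + (vm L).card) * 2 := by
      rw [pow_succ]
    omega

/-- **length control**: an untouched path met by the free end is short -/
theorem Opt.length_le {G : SimpleGraph V} {P : ι → List V} (hP : Opt G P) (B : Finset ι)
    (c : List V) (R : Multiset (List V)) (hok : Ok G (c ::ₘ R))
    (hsum : vm (c ::ₘ R) = ∑ i ∈ B, ((P i : List V) : Multiset V))
    (hcard : (c ::ₘ R).card = B.card) (i : ι) (hi : i ∉ B) (x w : V) (hx : c.head? = some x)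
    (hw : w ∈ P i) (hadj : G.Adj x w) :
    (P i).length ≤ 2 * (vm (c ::ₘ R)).card + 4 := by
  have key : ∀ Q l r : List V, ((Q : List V) : Multiset V) = ((P i : List V) : Multiset V) →
      Q.length = (P i).length → Q.IsChain G.Adj →
      Q = l ++ w :: r → r.length ≤ l.length →
      (P i).length ≤ 2 * (vm (c ::ₘ R)).card + 4 := by
    intro Q l r hQm hQl hQc hQ hlr
    have hsum' : ∑ k ∈ insert i B, ((P k : List V) : Multiset V) =
        ((Q : List V) : Multiset V) + vm (c ::ₘ R) := by
      rw [Finset.sum_insert hi, ← hsum, hQm]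
    have hcard' : (insert i B).card = (c ::ₘ R).card + 1 := by
      rw [Finset.card_insert_of_notMem hi, hcard]
    have hr : r ≠ [] := by
      intro hr
      subst hr
      refine hP.no_merge (insert i B) c Q.reverse R ?_ ?_ ?_ x w hx ?_ hadj
      · intro k hk
        simp only [Multiset.mem_cons] at hk
        rcases hk with rfl | rfl | hk
        · exact hok k (by simp)
        · exact ⟨by simp [hQ], chain_reverse hQc⟩
        · exact hok k (by simp [hk])
      · rw [hsum', vm_cons, vm_cons, vm_cons, Multiset.coe_reverse]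
        abel
      · rw [hcard']
        simp
      · rw [hQ]
        simp
    have hr1 : 1 ≤ r.length := List.length_pos_iff.mpr hr
    have hl : l ≠ [] := List.length_pos_iff.mp (by omega)
    have hc := hok c (by simp)
    have hQc' := hQc
    rw [hQ, List.isChain_append] at hQc'
    have h1 : Ok G (l ::ₘ (c.reverse ++ w :: r) ::ₘ R) := by
      intro k hk
      simp only [Multiset.mem_cons] at hk
      rcases hk with rfl | rfl | hk
      · exact ⟨hl, hQc'.1⟩
      · refine ⟨by simp, ?_⟩
        rw [List.isChain_append]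
        refine ⟨chain_reverse hc.2, hQc'.2.1, ?_⟩
        intro a ha b hb
        rw [List.getLast?_reverse, hx] at ha
        simp at ha hb
        subst ha hb
        exact hadj
      · exact hok k (by simp [hk])
    have h2 : vm (l ::ₘ (c.reverse ++ w :: r) ::ₘ R) =
        ∑ k ∈ insert i B, ((P k : List V) : Multiset V) := by
      rw [hsum', hQ, vm_cons, vm_cons, vm_cons, ← Multiset.coe_add, ← Multiset.coe_add,
        Multiset.coe_reverse]
      abel
    have h3 := hP.ex_le (insert i B) _ h1 h2 (by rw [hcard']; simp)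
    rw [Finset.sum_insert hi, Multiset.map_cons, Multiset.map_cons, Multiset.sum_cons,
      Multiset.sum_cons] at h3
    have h4 := sum_two_pow_lt R (fun l hl => (hok l (by simp [hl])).1)
    by_contra hcon
    push Not at hcon
    have e1 : (vm (c ::ₘ R)).card = c.length + (vm R).card := by
      rw [vm_cons, Multiset.card_add, Multiset.coe_card]
    have e2 : Q.length = l.length + (r.length + 1) := by rw [hQ]; simp
    have e3 : (c.reverse ++ w :: r).length = c.length + (r.length + 1) := by simp
    have b1 : 2 ^ l.length ≤ 2 ^ ((P i).length - 2) :=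
      Nat.pow_le_pow_right (by norm_num) (by omega)
    have b2 : 2 ^ (c.reverse ++ w :: r).length ≤ 2 ^ ((P i).length - 2) :=
      Nat.pow_le_pow_right (by norm_num) (by omega)
    have b3 : 2 ^ ((vm R).card + 1) ≤ 2 ^ ((P i).length - 2) :=
      Nat.pow_le_pow_right (by norm_num) (by omega)
    have b4 : 2 ^ (P i).length = 2 ^ ((P i).length - 2) * 4 := by
      have : (P i).length = (P i).length - 2 + 2 := by omega
      conv_lhs => rw [this, pow_add]
      norm_num
    omega
  obtain ⟨l, r, hlr⟩ := List.append_of_mem hw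
  rcases le_total r.length l.length with h | h
  · exact key (P i) l r rfl rfl (hP.cov.chain i) hlr h
  · refine key (P i).reverse r.reverse l.reverse (Multiset.coe_reverse _) (by simp)
      (chain_reverse (hP.cov.chain i)) (by rw [hlr]; simp) (by simpa using h)

end opt


section hist

variable {V ι : Type} [Fintype V] [DecidableEq V] [Fintype ι] [DecidableEq ι]

/-- histories: after `k` rotations the touched indices are `B`, the current path (its head is the
free end) is `c`, the other paths on the touched vertices are `R` -/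
inductive Hist (G : SimpleGraph V) (P : ι → List V) (s : ℕ) :
    ℕ → Finset ι → List V → Multiset (List V) → Prop
  | start (i : ι) (c : List V) (hc : c = P i ∨ c = (P i).reverse) (hs : (P i).length ≤ s) :
      Hist G P s 0 {i} c 0
  | step {k : ℕ} {B : Finset ι} {c c' : List V} {R R' : Multiset (List V)}
      (h : Hist G P s k B c R) (h' : Step G c R c' R') : Hist G P s (k + 1) B c' R'
  | new {k : ℕ} {B : Finset ι} {c c' : List V} {R R' : Multiset (List V)}
      (h : Hist G P s k B c R) (i : ι) (hi : i ∉ B) (x w : V) (hx : c.head? = some x)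
      (hw : w ∈ P i) (hadj : G.Adj x w) (h' : Step G c (P i ::ₘ R) c' R') :
      Hist G P s (k + 1) (insert i B) c' R'

/-- the invariants of a history: the current lists are nonempty walks with the same vertices and
the same number of paths as the touched paths of the cover -/
structure Inv (G : SimpleGraph V) (P : ι → List V) (B : Finset ι) (c : List V)
    (R : Multiset (List V)) : Prop where
  ok : Ok G (c ::ₘ R)
  sum : vm (c ::ₘ R) = ∑ i ∈ B, ((P i : List V) : Multiset V)
  card : (c ::ₘ R).card = B.card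

omit [DecidableEq V] in
theorem Inv.extend {G : SimpleGraph V} {P : ι → List V} (hP : Opt G P) {B : Finset ι}
    {c : List V} {R : Multiset (List V)} (h : Inv G P B c R) {i : ι} (hi : i ∉ B) :
    Inv G P (insert i B) c (P i ::ₘ R) := by
  refine ⟨?_, ?_, ?_⟩
  · intro l hl
    simp only [Multiset.mem_cons] at hl
    rcases hl with rfl | rfl | hl
    · exact h.ok l (by simp)
    · exact ⟨hP.cov.ne i, hP.cov.chain i⟩
    · exact h.ok l (by simp [hl])
  · rw [Finset.sum_insert hi, ← h.sum, vm_cons, vm_cons, vm_cons]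
    abel
  · rw [Finset.card_insert_of_notMem hi, ← h.card]
    simp

omit [DecidableEq V] [Fintype V] [Fintype ι] [DecidableEq ι] in
theorem Inv.step {G : SimpleGraph V} {P : ι → List V} {B : Finset ι}
    {c c' : List V} {R R' : Multiset (List V)} (h : Inv G P B c R) (h' : Step G c R c' R') :
    Inv G P B c' R' := by
  refine ⟨h'.ok h.ok, by rw [h'.vm, h.sum], ?_⟩
  rw [Multiset.card_cons, h'.card, ← h.card, Multiset.card_cons]

omit [DecidableEq V] in
theorem Hist.inv {G : SimpleGraph V} {P : ι → List V} (hP : Opt G P) {s k : ℕ} {B : Finset ι}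
    {c : List V} {R : Multiset (List V)} (h : Hist G P s k B c R) : Inv G P B c R := by
  induction h with
  | start i c hc hs =>
    refine ⟨?_, ?_, by simp⟩
    · intro l hl
      simp only [Multiset.mem_cons, Multiset.notMem_zero, or_false] at hl
      subst hl
      rcases hc with rfl | rfl
      · exact ⟨hP.cov.ne i, hP.cov.chain i⟩
      · exact ⟨by simpa using hP.cov.ne i, chain_reverse (hP.cov.chain i)⟩
    · rw [vm_cons, Finset.sum_singleton]
      rcases hc with rfl | rfl
      · simp [vm]
      · simp [vm]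
  | step h h' ih => exact ih.step h'
  | new h i hi x w hx hw hadj h' ih => exact (ih.extend hP hi).step h'

omit [DecidableEq V] in
theorem Hist.len {G : SimpleGraph V} {P : ι → List V} (hP : Opt G P) {s k : ℕ} {B : Finset ι}
    {c : List V} {R : Multiset (List V)} (h : Hist G P s k B c R) :
    (vm (c ::ₘ R)).card + 2 ≤ 3 ^ k * (s + 2) := by
  induction h with
  | start i c hc hs =>
    rcases hc with rfl | rfl
    · simpa [vm] using hs
    · simpa [vm] using hs
  | @step k B c c' R R' h h' ih =>
    have e : 3 ^ (k + 1) * (s + 2) = 3 * (3 ^ k * (s + 2)) := by ring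
    rw [h'.vm, e]
    omega
  | @new k B c c' R R' h i hi x w hx hw hadj h' ih =>
    have h1 := h.inv hP
    have h2 := hP.length_le B c R h1.ok h1.sum h1.card i hi x w hx hw hadj
    have e : 3 ^ (k + 1) * (s + 2) = 3 * (3 ^ k * (s + 2)) := by ring
    rw [h'.vm, e]
    have h3 : (vm (c ::ₘ P i ::ₘ R)).card = (vm (c ::ₘ R)).card + (P i).length := by
      rw [vm_cons, vm_cons, vm_cons]
      simp only [Multiset.card_add, Multiset.coe_card]
      omega
    rw [h3]
    omega

/-- balls -/
def ball (G : SimpleGraph V) [DecidableRel G.Adj] : ℕ → V → Finset V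
  | 0, v => {v}
  | (k + 1), v => ball G k v ∪ (G.neighborFinset v).biUnion (ball G k)

theorem ball_succ (G : SimpleGraph V) [DecidableRel G.Adj] (k : ℕ) (v : V) :
    ball G k v ⊆ ball G (k + 1) v := Finset.subset_union_left

theorem ball_mono (G : SimpleGraph V) [DecidableRel G.Adj] {k l : ℕ} (h : k ≤ l) (v : V) :
    ball G k v ⊆ ball G l v := by
  induction h with
  | refl => exact Finset.Subset.refl _
  | step h ih => exact ih.trans (ball_succ G _ v)

theorem ball_adj (G : SimpleGraph V) [DecidableRel G.Adj] {k : ℕ} {u v v' : V}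
    (h : u ∈ ball G k v) (hadj : G.Adj v v') : u ∈ ball G (k + 1) v' := by
  refine Finset.mem_union_right _ (Finset.mem_biUnion.mpr ⟨v, ?_, h⟩)
  simpa using hadj.symm

theorem ball_card (G : SimpleGraph V) [DecidableRel G.Adj] {Δ : ℕ}
    (hΔ : ∀ v, (G.neighborFinset v).card ≤ Δ) (k : ℕ) (v : V) :
    (ball G k v).card ≤ (Δ + 1) ^ k := by
  induction k generalizing v with
  | zero => simp [ball]
  | succ k ih =>
    have h1 : ((G.neighborFinset v).biUnion (ball G k)).card ≤
        (G.neighborFinset v).card * (Δ + 1) ^ k :=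
      Finset.card_biUnion_le_card_mul _ _ _ (fun u _ => ih u)
    have h2 : (ball G (k + 1) v).card ≤ (ball G k v).card +
        ((G.neighborFinset v).biUnion (ball G k)).card := Finset.card_union_le _ _
    have h3 : (G.neighborFinset v).card * (Δ + 1) ^ k ≤ Δ * (Δ + 1) ^ k :=
      Nat.mul_le_mul_right _ (hΔ v)
    have h4 := ih v
    calc _ ≤ (Δ + 1) ^ k + Δ * (Δ + 1) ^ k := by omega
      _ = (Δ + 1) ^ (k + 1) := by ring

theorem ball_card' (G : SimpleGraph V) [DecidableRel G.Adj] {Δ : ℕ}
    (hΔ : ∀ v, (G.neighborFinset v).card ≤ Δ) (k : ℕ) (u : V) :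
    (univ.filter (fun v => u ∈ ball G k v)).card ≤ (Δ + 1) ^ k := by
  induction k with
  | zero => simp [ball, Finset.filter_eq]
  | succ k ih =>
    have h1 : univ.filter (fun v => u ∈ ball G (k + 1) v) ⊆
        univ.filter (fun v => u ∈ ball G k v) ∪
          (univ.filter (fun v => u ∈ ball G k v)).biUnion (fun v => G.neighborFinset v) := by
      intro v hv
      simp only [Finset.mem_filter, Finset.mem_univ, true_and, ball, Finset.mem_union,
        Finset.mem_biUnion, SimpleGraph.mem_neighborFinset] at hv ⊢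
      rcases hv with hv | ⟨v', h1, h2⟩
      · exact Or.inl hv
      · exact Or.inr ⟨v', h2, h1.symm⟩
    have h2 := Finset.card_le_card h1
    have h3 := Finset.card_union_le (univ.filter (fun v => u ∈ ball G k v))
      ((univ.filter (fun v => u ∈ ball G k v)).biUnion (fun v => G.neighborFinset v))
    have h4 : ((univ.filter (fun v => u ∈ ball G k v)).biUnion
        (fun v => G.neighborFinset v)).card ≤ (univ.filter (fun v => u ∈ ball G k v)).card * Δ :=
      Finset.card_biUnion_le_card_mul _ _ _ (fun u _ => hΔ u)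
    calc _ ≤ (univ.filter (fun v => u ∈ ball G k v)).card * (Δ + 1) := by
          rw [mul_add]; omega
      _ ≤ (Δ + 1) ^ k * (Δ + 1) := Nat.mul_le_mul_right _ ih
      _ = _ := by ring

theorem Hist.near {G : SimpleGraph V} [DecidableRel G.Adj] {P : ι → List V} (hP : Opt G P)
    {s k : ℕ} {B : Finset ι}
    {c : List V} {R : Multiset (List V)} (h : Hist G P s k B c R) :
    ∀ x, c.head? = some x → ∀ i ∈ B, ∃ u ∈ P i, u ∈ ball G (2 * k + 1) x := by
  induction h with
  | start i c hc hs =>
    intro x hx i' hi'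
    rw [Finset.mem_singleton] at hi'
    subst hi'
    refine ⟨x, ?_, ball_succ G _ _ (by simp [ball])⟩
    have : x ∈ c := List.mem_of_mem_head? hx
    rcases hc with rfl | rfl
    · exact this
    · simpa using this
  | @step k B c c' R R' h h' ih =>
    intro x' hx' i hi
    obtain ⟨x, w, w', h1, h2, h3, ⟨Q, hQ, h4⟩, -⟩ := h'.nx
    obtain ⟨u, hu, hu'⟩ := ih x h1 i hi
    have h5 : G.Adj w w' := h4.adj ((h.inv hP).ok Q hQ).2
    rw [hx'] at h2
    simp at h2
    subst h2
    exact ⟨u, hu, ball_adj G (ball_adj G hu' h3) h5⟩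
  | @new k B c c' R R' h i₀ hi₀ x₀ w₀ hx hw hadj h' ih =>
    intro x' hx' i hi
    obtain ⟨x, w, w', h1, h2, h3, ⟨Q, hQ, h4⟩, -⟩ := h'.nx
    have h5 : G.Adj w w' := h4.adj (((h.inv hP).extend hP hi₀).ok Q hQ).2
    rw [hx'] at h2
    rw [hx] at h1
    simp at h1 h2
    subst h1 h2
    rw [Finset.mem_insert] at hi
    rcases hi with rfl | hi
    · refine ⟨w₀, hw, ?_⟩
      have h6 : w₀ ∈ ball G 0 w₀ := by simp [ball]
      exact ball_mono G (by omega) _ (ball_adj G (ball_adj G (ball_adj G h6 hadj.symm) h3) h5)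
    · obtain ⟨u, hu, hu'⟩ := ih x₀ hx i hi
      exact ⟨u, hu, ball_adj G (ball_adj G hu' h3) h5⟩

/-- original path neighbours -/
def ON (P : ι → List V) (w u : V) : Prop := ∃ i, Nx (P i) w u

/-- ends reachable by at most `k` rotations inside `A` -/
noncomputable def S (G : SimpleGraph V) (P : ι → List V) (s k : ℕ) (A : Finset ι) : Finset V := by
  classical exact univ.filter (fun v => ∃ j ≤ k, ∃ B ⊆ A, ∃ c R, Hist G P s j B c R ∧
    c.head? = some v)

omit [DecidableEq V] [Fintype ι] in
theorem mem_S {G : SimpleGraph V} {P : ι → List V} {s k : ℕ} {A : Finset ι} {v : V} :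
    v ∈ S G P s k A ↔ ∃ j ≤ k, ∃ B ⊆ A, ∃ c R, Hist G P s j B c R ∧ c.head? = some v := by
  simp [S]

omit [DecidableEq V] [Fintype ι] in
theorem S_mono {G : SimpleGraph V} {P : ι → List V} {s k l : ℕ} {A A' : Finset ι}
    (hkl : k ≤ l) (hA : A ⊆ A') : S G P s k A ⊆ S G P s l A' := by
  intro v hv
  rw [mem_S] at hv ⊢
  obtain ⟨j, hj, B, hB, c, R, h⟩ := hv
  exact ⟨j, hj.trans hkl, B, hB.trans hA, c, R, h⟩

omit [DecidableEq V] [Fintype ι] in
theorem nbr_step {G : SimpleGraph V} {P : ι → List V} {s k : ℕ} {B : Finset ι}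
    {c c' : List V} {R R' : Multiset (List V)} (h' : Step G c R c' R')
    (hx : ∀ x, c.head? = some x → x ∈ S G P s (k + 1) B)
    (hx' : ∀ x, c'.head? = some x → x ∈ S G P s (k + 1) B) (w : V)
    (ih : w ∈ S G P s (k + 1) B ∨ (∃ u, ON P w u ∧ u ∈ S G P s (k + 1) B) ∨
      (∀ Q ∈ c ::ₘ R, ∀ u, Nx Q w u → ON P w u))
    : w ∈ S G P s (k + 1) B ∨ (∃ u, ON P w u ∧ u ∈ S G P s (k + 1) B) ∨
      (∀ Q ∈ c' ::ₘ R', ∀ u, Nx Q w u → ON P w u) := by
  rcases ih with ih | ih | ih
  · exact Or.inl ih
  · exact Or.inr (Or.inl ih)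
  · obtain ⟨x, w₀, w', h1, h2, h3, ⟨Q, hQ, h4⟩, h5⟩ := h'.nx
    by_cases hwx : w = x
    · subst hwx
      exact Or.inl (hx _ h1)
    by_cases hww : w = w₀
    · subst hww
      exact Or.inr (Or.inl ⟨w', ih Q hQ w' h4, hx' _ h2⟩)
    · refine Or.inr (Or.inr ?_)
      intro Q' hQ' u hu
      rcases h5 Q' hQ' w u hu with ⟨Q₁, hQ₁, h6⟩ | h6 | h6
      · exact ih Q₁ hQ₁ u h6
      · exact absurd h6.1 hwx
      · exact absurd h6.1 hww

omit [DecidableEq V] [Fintype ι] in
theorem Hist.nbr {G : SimpleGraph V} {P : ι → List V} {s k : ℕ} {B : Finset ι}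
    {c : List V} {R : Multiset (List V)} (h : Hist G P s k B c R) (w : V) :
    w ∈ S G P s k B ∨ (∃ u, ON P w u ∧ u ∈ S G P s k B) ∨
      (∀ Q ∈ c ::ₘ R, ∀ u, Nx Q w u → ON P w u) := by
  induction h with
  | start i c hc hs =>
    refine Or.inr (Or.inr ?_)
    intro Q hQ u hu
    simp only [Multiset.mem_cons, Multiset.notMem_zero, or_false] at hQ
    subst hQ
    rcases hc with rfl | rfl
    · exact ⟨i, hu⟩
    · exact ⟨i, hu.reverse⟩
  | @step k B c c' R R' h h' ih =>
    refine nbr_step h' ?_ ?_ w ?_
    · intro x hx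
      exact mem_S.mpr ⟨k, by omega, B, Finset.Subset.refl _, c, R, h, hx⟩
    · intro x hx
      exact mem_S.mpr ⟨k + 1, le_refl _, B, Finset.Subset.refl _, c', R', h.step h', hx⟩
    · rcases ih with ih | ⟨u, hu, ih⟩ | ih
      · exact Or.inl (S_mono (by omega) (Finset.Subset.refl _) ih)
      · exact Or.inr (Or.inl ⟨u, hu, S_mono (by omega) (Finset.Subset.refl _) ih⟩)
      · exact Or.inr (Or.inr ih)
  | @new k B c c' R R' h i₀ hi₀ x₀ w₀ hx₀ hw₀ hadj h' ih =>
    refine nbr_step h' ?_ ?_ w ?_
    · intro x hx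
      exact mem_S.mpr ⟨k, by omega, B, Finset.subset_insert _ _, c, R, h, hx⟩
    · intro x hx
      exact mem_S.mpr ⟨k + 1, le_refl _, insert i₀ B, Finset.Subset.refl _, c', R',
        h.new i₀ hi₀ x₀ w₀ hx₀ hw₀ hadj h', hx⟩
    · rcases ih with ih | ⟨u, hu, ih⟩ | ih
      · exact Or.inl (S_mono (by omega) (Finset.subset_insert _ _) ih)
      · exact Or.inr (Or.inl ⟨u, hu, S_mono (by omega) (Finset.subset_insert _ _) ih⟩)
      · refine Or.inr (Or.inr ?_)
        intro Q hQ u hu
        simp only [Multiset.mem_cons] at hQ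
        rcases hQ with rfl | rfl | hQ
        · exact ih Q (by simp) u hu
        · exact ⟨i₀, hu⟩
        · exact ih Q (by simp [hQ]) u hu

end hist


section final

variable {V ι : Type} [Fintype V] [DecidableEq V] [Fintype ι] [DecidableEq ι]

omit [Fintype V] [DecidableEq V] in
theorem mem_vm {L : Multiset (List V)} (w : V) : w ∈ vm L ↔ ∃ Q ∈ L, w ∈ Q := by
  induction L using Multiset.induction with
  | empty => simp [vm]
  | cons a L ih => simp [vm_cons, ih]

omit [Fintype V] [DecidableEq V] [Fintype ι] [DecidableEq ι] in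
theorem mem_vm_iff {P : ι → List V} {B : Finset ι} {L : Multiset (List V)}
    (h : vm L = ∑ i ∈ B, ((P i : List V) : Multiset V)) (w : V) :
    (∃ Q ∈ L, w ∈ Q) ↔ ∃ i ∈ B, w ∈ P i := by
  rw [← mem_vm, h, Multiset.mem_sum]
  simp

omit [DecidableEq V] [DecidableEq ι] in
/-- the lists of a cover are duplicate free and disjoint -/
theorem Cov.nodup {G : SimpleGraph V} {P : ι → List V} (hP : Cov G P) (i : ι) :
    (P i).Nodup := by
  have h1 : ((P i : List V) : Multiset V) ≤ ∑ i, ((P i : List V) : Multiset V) :=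
    Finset.single_le_sum (f := fun i => ((P i : List V) : Multiset V))
      (fun _ _ => Multiset.zero_le _) (Finset.mem_univ i)
  rw [hP.sum] at h1
  exact Multiset.coe_nodup.mp (Multiset.nodup_of_le h1 (Finset.nodup _))

omit [DecidableEq V] in
theorem Cov.disj {G : SimpleGraph V} {P : ι → List V} (hP : Cov G P) {i i' : ι} {v : V}
    (h : v ∈ P i) (h' : v ∈ P i') : i = i' := by
  by_contra hne
  have h1 : ∑ k ∈ ({i, i'} : Finset ι), ((P k : List V) : Multiset V) ≤
      ∑ i, ((P i : List V) : Multiset V) :=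
    Finset.sum_le_sum_of_subset (Finset.subset_univ _)
  rw [hP.sum, Finset.sum_pair hne] at h1
  have h2 := Multiset.nodup_of_le h1 (Finset.nodup _)
  rw [Multiset.nodup_add] at h2
  exact (Multiset.disjoint_left.mp h2.2.2) (by simpa using h) (by simpa using h')

omit [DecidableEq V] in
/-- **growth**: an end `v` and a neighbour `w` of it give a new end next to `w` -/
theorem growth {G : SimpleGraph V} {P : ι → List V} (hP : Opt G P) {s k : ℕ} {A : Finset ι}
    {v w : V} (hv : v ∈ S G P s k A) (hadj : G.Adj v w) {i : ι} (hi : i ∈ A) (hw : w ∈ P i) :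
    w ∈ S G P s (k + 1) A ∨ ∃ u, ON P w u ∧ u ∈ S G P s (k + 1) A := by
  rw [mem_S] at hv
  obtain ⟨j, hj, B, hB, c, R, h, hc⟩ := hv
  -- a general statement for the two cases (touched or untouched path)
  have key : ∀ (B' : Finset ι) (R' : Multiset (List V)), B' ⊆ A → Inv G P B' c R' → i ∈ B' →
      (∀ Q ∈ c ::ₘ R', ∀ u, Nx Q w u → ON P w u) →
      (∀ c'' R'', Step G c R' c'' R'' → Hist G P s (j + 1) B' c'' R'') →
      ∃ u, ON P w u ∧ u ∈ S G P s (k + 1) A := by
    intro B' R' hB' hinv hiB' hnb hstep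
    obtain ⟨Q, hQ, hwQ⟩ := (mem_vm_iff hinv.sum w).mpr ⟨i, hiB', hw⟩
    obtain ⟨l, r, hlr⟩ := List.append_of_mem hwQ
    have hnew : ∀ (w' : V) (c'' : List V) (R'' : Multiset (List V)), Step G c R' c'' R'' →
        c''.head? = some w' → Nx Q w w' → ∃ u, ON P w u ∧ u ∈ S G P s (k + 1) A := by
      intro w' c'' R'' h1 h2 h3
      exact ⟨w', hnb Q hQ w' h3, mem_S.mpr ⟨j + 1, by omega, B', hB', c'', R'',
        hstep c'' R'' h1, h2⟩⟩
    rcases List.eq_nil_or_concat l with hl | ⟨l', w', hl⟩
    · -- `w` is the first vertex of `Q`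
      subst hl
      rw [List.nil_append] at hlr
      rw [Multiset.mem_cons] at hQ
      rcases hQ with hQ | hQ
      · exfalso
        rw [← hQ, hlr] at hc
        simp at hc
        subst hc
        exact G.loopless.irrefl _ hadj
      · exfalso
        obtain ⟨R₁, hR₁⟩ := Multiset.exists_cons_of_mem hQ
        subst hR₁
        exact hP.no_merge B' c Q R₁ hinv.ok hinv.sum hinv.card v w hc (by rw [hlr]; simp) hadj
    · have hQ' : Q = l' ++ w' :: w :: r := by rw [hlr, hl]; simp
      have hnx : Nx Q w w' := Or.inr ⟨l', r, hQ'⟩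
      rw [Multiset.mem_cons] at hQ
      rcases hQ with hQ | hQ
      · have hc' : c = l' ++ w' :: w :: r := by rw [← hQ, hQ']
        have hhd : (l' ++ [w']).head? = some v := by
          rw [hc'] at hc
          cases l' with
          | nil => simpa using hc
          | cons y l' => simpa using hc
        have hs : Step G c R' ((l' ++ [w']).reverse ++ w :: r) R' := by
          rw [hc']
          exact Step.own v w w' l' r R' hhd hadj
        exact hnew w' _ _ hs (by simp) hnx
      · obtain ⟨R₁, hR₁⟩ := Multiset.exists_cons_of_mem hQ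
        subst hR₁
        obtain ⟨t, ht⟩ : ∃ t, c = v :: t := by
          cases c with
          | nil => simp at hc
          | cons y t => simp at hc; exact ⟨t, by rw [hc]⟩
        have hs : Step G c (Q ::ₘ R₁) (l' ++ [w']).reverse ((c.reverse ++ w :: r) ::ₘ R₁) := by
          rw [ht]
          exact Step.other v w w' t l' r Q R₁ hadj (Or.inl hQ')
        exact hnew w' _ _ hs (by simp) hnx
  have hmono : S G P s j B ⊆ S G P s (k + 1) A := S_mono (by omega) hB
  rcases h.nbr w with h1 | ⟨u, h1, h2⟩ | h1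
  · exact Or.inl (hmono h1)
  · exact Or.inr ⟨u, h1, hmono h2⟩
  · right
    by_cases hiB : i ∈ B
    · exact key B R hB (h.inv hP) hiB h1 (fun c'' R'' hs => h.step hs)
    · refine key (insert i B) (P i ::ₘ R) ?_ ((h.inv hP).extend hP hiB)
        (Finset.mem_insert_self _ _) ?_ ?_
      · exact Finset.insert_subset hi hB
      · intro Q hQ u hu
        simp only [Multiset.mem_cons] at hQ
        rcases hQ with rfl | rfl | hQ
        · exact h1 Q (by simp) u hu
        · exact ⟨i, hu⟩
        · exact h1 Q (by simp [hQ]) u hu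
      · intro c'' R'' hs
        exact h.new i hiB v w hc hw hadj hs

omit [DecidableEq V] in
theorem merge {G : SimpleGraph V} {P : ι → List V} (hP : Opt G P) {s k k' : ℕ}
    {A A' : Finset ι} (hA : Disjoint A A') {v x : V} (hv : v ∈ S G P s k A)
    (hx : x ∈ S G P s k' A') : ¬ G.Adj v x := by
  rw [mem_S] at hv hx
  obtain ⟨j, hj, B, hB, c, R, h, hc⟩ := hv
  obtain ⟨j', hj', B', hB', c', R', h', hc'⟩ := hx
  have i1 := h.inv hP
  have i2 := h'.inv hP
  have hd : Disjoint B B' := Finset.disjoint_of_subset_left hB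
    (Finset.disjoint_of_subset_right hB' hA)
  refine hP.no_merge (B ∪ B') c c' (R + R') ?_ ?_ ?_ v x hc hc'
  · intro l hl
    simp only [Multiset.mem_cons, Multiset.mem_add] at hl
    rcases hl with rfl | rfl | hl | hl
    · exact i1.ok l (by simp)
    · exact i2.ok l (by simp)
    · exact i1.ok l (by simp [hl])
    · exact i2.ok l (by simp [hl])
  · rw [Finset.sum_union hd, ← i1.sum, ← i2.sum]
    simp only [vm_cons, vm_add]
    abel
  · rw [Finset.card_union_of_disjoint hd, ← i1.card, ← i2.card]
    simp only [Multiset.card_cons, Multiset.card_add]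
    omega

theorem on_card {G : SimpleGraph V} {P : ι → List V} (hP : Cov G P) (u : V) [DecidablePred
    (fun w => ON P w u)] : (univ.filter (fun w => ON P w u)).card ≤ 2 := by
  by_cases hu : ∃ i, u ∈ P i
  · obtain ⟨i, hi⟩ := hu
    obtain ⟨l, r, hlr⟩ := List.append_of_mem hi
    have hnd := hP.nodup i
    rw [hlr] at hnd
    have hul : u ∉ l := by
      intro h
      exact (List.disjoint_of_nodup_append hnd) h (by simp)
    have hur : u ∉ r := by
      have := (List.nodup_append.mp hnd).2.1
      exact (List.nodup_cons.mp this).1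
    have hsub : univ.filter (fun w => ON P w u) ⊆
        l.getLast?.toFinset ∪ r.head?.toFinset := by
      intro w hw
      simp only [Finset.mem_filter, Finset.mem_univ, true_and] at hw
      obtain ⟨i', hw⟩ := hw
      have hii : i' = i := by
        refine hP.disj ?_ hi
        rcases hw with ⟨l', r', h⟩ | ⟨l', r', h⟩
        · rw [h]; simp
        · rw [h]; simp
      subst hii
      rw [Finset.mem_union]
      rcases hw with ⟨l', r', h⟩ | ⟨l', r', h⟩
      · left
        have h1 : l ++ u :: r = (l' ++ [w]) ++ u :: r' := by rw [← hlr, h]; simp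
        rw [List.append_cons_inj_of_notMem hul hur] at h1
        rw [h1.1]
        simp
      · right
        have h1 : l ++ u :: r = l' ++ u :: (w :: r') := by rw [← hlr, h]
        rw [List.append_cons_inj_of_notMem hul hur] at h1
        rw [h1.2.2]
        simp
    refine (Finset.card_le_card hsub).trans ((Finset.card_union_le _ _).trans ?_)
    have e1 : ∀ o : Option V, o.toFinset.card ≤ 1 := by
      intro o; cases o <;> simp
    have := e1 l.getLast?
    have := e1 r.head?
    omega
  · have : univ.filter (fun w => ON P w u) = ∅ := by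
      rw [Finset.filter_eq_empty_iff]
      intro w _ hw
      obtain ⟨i, hw⟩ := hw
      apply hu
      refine ⟨i, ?_⟩
      rcases hw with ⟨l', r', h⟩ | ⟨l', r', h⟩
      · rw [h]; simp
      · rw [h]; simp
    rw [this]
    simp

/-- **the deterministic half of the bulk lemma** -/
theorem bulk_det (G : SimpleGraph V) [DecidableRel G.Adj] (P : ι → List V) (hP : Opt G P)
    (Δ K s : ℕ) (hΔ : ∀ v, (G.neighborFinset v).card ≤ Δ) (j : V → ι) (hj : ∀ v, v ∈ P (j v)) :
    ∃ (R : ℕ → Finset ι → Finset V) (Nb : V → Finset ι),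
      (∀ k A A', A ⊆ A' → R k A ⊆ R k A') ∧ (∀ k A, R k A ⊆ R (k + 1) A) ∧
      (∀ k A, ∀ v ∈ R k A, j v ∈ A) ∧
      (∀ A : Finset ι, (A.filter (fun i => (P i).length ≤ s)).card ≤ (R 0 A).card) ∧
      (∀ k A, (((R k A).biUnion (fun v => G.neighborFinset v)).filter
          (fun w => j w ∈ A)).card ≤ 3 * (R (k + 1) A).card) ∧
      (∀ k ≤ K, ∀ A v, v ∈ R k A → v ∈ R k (A ∩ Nb v)) ∧
      (∀ v, (univ.filter (fun v' => ¬ Disjoint (Nb v) (Nb v'))).card ≤
        3 ^ K * (s + 2) * (Δ + 1) ^ (4 * K + 2)) ∧
      (∀ k k' A B, Disjoint A B → ∀ v ∈ R k A, ∀ x ∈ R k' B, ¬ G.Adj v x) := by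
  classical
  refine ⟨fun k A => S G P s k A, fun v => univ.filter (fun i =>
    (P i).length ≤ 3 ^ K * (s + 2) ∧ ∃ u ∈ P i, u ∈ ball G (2 * K + 1) v), ?_, ?_, ?_, ?_, ?_,
    ?_, ?_, ?_⟩
  · intro k A A' h
    exact S_mono le_rfl h
  · intro k A
    exact S_mono (by omega) (Finset.Subset.refl _)
  · intro k A v hv
    rw [mem_S] at hv
    obtain ⟨l, hl, B, hB, c, R, h, hc⟩ := hv
    have h1 : v ∈ c := List.mem_of_mem_head? hc
    obtain ⟨i, hi, hvi⟩ := (mem_vm_iff (h.inv hP).sum v).mp ⟨c, by simp, h1⟩
    rw [hP.cov.disj (hj v) hvi]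
    exact hB hi
  · intro A
    refine Finset.card_le_card_of_injOn (fun i => (P i).head (hP.cov.ne i)) ?_ ?_
    · intro i hi
      simp only [Finset.coe_filter, Set.mem_ofPred_eq] at hi
      refine Finset.mem_coe.mpr (mem_S.mpr ⟨0, le_rfl, {i}, by simpa using hi.1, P i, 0,
        Hist.start i (P i) (Or.inl rfl) hi.2, List.head?_eq_some_head _⟩)
    · intro i hi i' hi' h
      simp only at h
      have h1 : (P i).head (hP.cov.ne i) ∈ P i := List.head_mem _
      have h2 : (P i').head (hP.cov.ne i') ∈ P i' := List.head_mem _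
      rw [← h] at h2
      exact hP.cov.disj h1 h2
  · intro k A
    have hsub : ((S G P s k A).biUnion (fun v => G.neighborFinset v)).filter (fun w => j w ∈ A) ⊆
        S G P s (k + 1) A ∪ (S G P s (k + 1) A).biUnion
          (fun u => univ.filter (fun w => ON P w u)) := by
      intro w hw
      simp only [Finset.mem_filter, Finset.mem_biUnion, SimpleGraph.mem_neighborFinset] at hw
      obtain ⟨⟨v, hv, hadj⟩, hwA⟩ := hw
      rcases growth hP hv hadj hwA (hj w) with h | ⟨u, h1, h2⟩
      · exact Finset.mem_union_left _ h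
      · refine Finset.mem_union_right _ (Finset.mem_biUnion.mpr ⟨u, h2, ?_⟩)
        simpa using h1
    have h1 := Finset.card_le_card hsub
    have h2 := Finset.card_union_le (S G P s (k + 1) A) ((S G P s (k + 1) A).biUnion
          (fun u => univ.filter (fun w => ON P w u)))
    have h3 : ((S G P s (k + 1) A).biUnion
          (fun u => univ.filter (fun w => ON P w u))).card ≤ (S G P s (k + 1) A).card * 2 :=
      Finset.card_biUnion_le_card_mul _ _ _ (fun u _ => on_card hP.cov u)
    simp only
    omega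
  · intro k hk A v hv
    rw [mem_S] at hv ⊢
    obtain ⟨l, hl, B, hB, c, R, h, hc⟩ := hv
    refine ⟨l, hl, B, ?_, c, R, h, hc⟩
    intro i hi
    rw [Finset.mem_inter]
    refine ⟨hB hi, ?_⟩
    simp only [Finset.mem_filter, Finset.mem_univ, true_and]
    constructor
    · have h1 : ((P i : List V) : Multiset V) ≤ vm (c ::ₘ R) := by
        rw [(h.inv hP).sum]
        exact Finset.single_le_sum (f := fun i => ((P i : List V) : Multiset V))
          (fun _ _ => Multiset.zero_le _) hi
      have h2 := Multiset.card_le_card h1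
      rw [Multiset.coe_card] at h2
      have h3 := h.len hP
      have h4 : 3 ^ l * (s + 2) ≤ 3 ^ K * (s + 2) :=
        Nat.mul_le_mul_right _ (Nat.pow_le_pow_right (by norm_num) (by omega))
      omega
    · obtain ⟨u, hu, hu'⟩ := h.near hP v hc i hi
      exact ⟨u, hu, ball_mono G (by omega) _ hu'⟩
  · intro v
    have hsub : univ.filter (fun v' => ¬ Disjoint (univ.filter (fun i =>
          (P i).length ≤ 3 ^ K * (s + 2) ∧ ∃ u ∈ P i, u ∈ ball G (2 * K + 1) v))
          (univ.filter (fun i => (P i).length ≤ 3 ^ K * (s + 2) ∧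
            ∃ u ∈ P i, u ∈ ball G (2 * K + 1) v'))) ⊆
        (ball G (2 * K + 1) v).biUnion (fun u =>
          (if (P (j u)).length ≤ 3 ^ K * (s + 2) then (P (j u)).toFinset else ∅).biUnion
            (fun u' => univ.filter (fun v' => u' ∈ ball G (2 * K + 1) v'))) := by
      intro v' hv'
      simp only [Finset.mem_filter, Finset.mem_univ, true_and, Finset.disjoint_left,
        not_forall, not_not] at hv'
      obtain ⟨i, ⟨h1, u, hu, hu'⟩, h2⟩ := hv'
      obtain ⟨-, u', hu1, hu2⟩ := h2
      have hij : j u = i := hP.cov.disj (hj u) hu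
      rw [Finset.mem_biUnion]
      refine ⟨u, hu', ?_⟩
      rw [Finset.mem_biUnion]
      refine ⟨u', ?_, ?_⟩
      · rw [hij, if_pos h1]
        simpa using hu1
      · simpa using hu2
    refine (Finset.card_le_card hsub).trans ?_
    refine (Finset.card_biUnion_le_card_mul _ _ (3 ^ K * (s + 2) * (Δ + 1) ^ (2 * K + 1))
      ?_).trans ?_
    · intro u hu
      refine (Finset.card_biUnion_le_card_mul _ _ ((Δ + 1) ^ (2 * K + 1))
        (fun u' _ => ball_card' G hΔ _ u')).trans ?_
      refine Nat.mul_le_mul_right _ ?_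
      split_ifs with h
      · exact (List.toFinset_card_le _).trans h
      · simp
    · calc (ball G (2 * K + 1) v).card * (3 ^ K * (s + 2) * (Δ + 1) ^ (2 * K + 1))
          ≤ (Δ + 1) ^ (2 * K + 1) * (3 ^ K * (s + 2) * (Δ + 1) ^ (2 * K + 1)) :=
            Nat.mul_le_mul_right _ (ball_card G hΔ _ v)
        _ = 3 ^ K * (s + 2) * (Δ + 1) ^ (4 * K + 2) := by ring
  · intro k k' A B hAB v hv x hx
    exact merge hP hAB hv hx

end final

end Pool.Agent.Bulk
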