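import Pool.Agent.Bulk.Prob
import Pool.Agent.Bulk.Det

/-!
MP_134267_co, low degree range, BULK LEMMA, assembly (helper6): existence of an optimal path cover,
theorem `bulk` (an expander of small maximum degree has a path cover with few paths) and its version
inside a set of vertices.
-/

set_option autoImplicit false

namespace Pool.Agent.Bulk

open Finset

/-- a family of lists from a list of lists -/
theorem bm_sum {V : Type} (l : List (List V)) :
    ∑ i : Fin l.length, ((l.get i : List V) : Multiset V) = vm (l : Multiset (List V)) := by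
  unfold vm
  rw [Multiset.map_coe, Multiset.sum_coe]
  conv_rhs => rw [← List.ofFn_get l, List.map_ofFn, List.sum_ofFn]
  rfl

theorem bm_sumn {V : Type} (l : List (List V)) :
    ∑ i : Fin l.length, 2 ^ (l.get i).length
      = ((l : Multiset (List V)).map (fun l : List V => 2 ^ l.length)).sum := by
  rw [Multiset.map_coe, Multiset.sum_coe]
  conv_rhs => rw [← List.ofFn_get l, List.map_ofFn, List.sum_ofFn]
  rfl

theorem exists_opt {V : Type} [Fintype V] (G : SimpleGraph V) :
    ∃ (p : ℕ) (P : Fin p → List V), Opt G P := by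
  classical
  let S : Set (Multiset (List V)) := {L | Ok G L ∧ vm L = (univ : Finset V).val}
  have hS : S.Nonempty := by
    refine ⟨(univ : Finset V).val.map (fun v => [v]), ?_, ?_⟩
    · intro l hl
      rw [Multiset.mem_map] at hl
      obtain ⟨v, _, rfl⟩ := hl
      exact ⟨by simp, List.isChain_singleton _⟩
    · unfold vm
      rw [Multiset.map_map]
      exact Multiset.sum_map_singleton _
  obtain ⟨p, hp⟩ : ∃ p, p = sInf ((fun L : Multiset (List V) => L.card) '' S) := ⟨_, rfl⟩
  have hp1 : p ∈ (fun L : Multiset (List V) => L.card) '' S := by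
    rw [hp]; exact Nat.sInf_mem (hS.image _)
  have hp2 : ∀ L ∈ S, p ≤ L.card := by
    intro L hL
    rw [hp]
    exact Nat.sInf_le ⟨L, hL, rfl⟩
  let S' : Set (Multiset (List V)) := {L | L ∈ S ∧ L.card = p}
  have hS' : S'.Nonempty := by
    obtain ⟨L, hL, hL'⟩ := hp1
    exact ⟨L, hL, hL'⟩
  obtain ⟨q, hq⟩ : ∃ q, q = sInf ((fun L : Multiset (List V) =>
    (L.map (fun l => 2 ^ l.length)).sum) '' S') := ⟨_, rfl⟩
  have hq1 : q ∈ (fun L : Multiset (List V) => (L.map (fun l => 2 ^ l.length)).sum) '' S' := by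
    rw [hq]; exact Nat.sInf_mem (hS'.image _)
  obtain ⟨L, ⟨hL1, hL2⟩, hL3⟩ := hq1
  obtain ⟨l, rfl⟩ := Quot.exists_rep L
  have hl : (Quot.mk _ l : Multiset (List V)) = (l : Multiset (List V)) := rfl
  rw [hl] at hL1 hL2 hL3
  have hlen : l.length = p := by rw [← hL2, Multiset.coe_card]
  refine ⟨l.length, l.get, ⟨⟨?_, ?_, ?_⟩, ?_, ?_⟩⟩
  · intro i
    exact (hL1.1 (l.get i) (by rw [Multiset.mem_coe]; exact List.get_mem l i)).1
  · intro i
    exact (hL1.1 (l.get i) (by rw [Multiset.mem_coe]; exact List.get_mem l i)).2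
  · rw [bm_sum]
    exact hL1.2
  · intro L' h1 h2
    rw [Fintype.card_fin, hlen]
    exact hp2 L' ⟨h1, h2⟩
  · intro L' h1 h2 h3
    rw [bm_sumn]
    have h4 : ((l : Multiset (List V)).map (fun l : List V => 2 ^ l.length)).sum = q := hL3
    rw [h4, hq]
    refine Nat.sInf_le ⟨L', ⟨⟨h1, h2⟩, ?_⟩, rfl⟩
    rw [h3, Fintype.card_fin, hlen]

/-- **BULK LEMMA** -/
theorem bulk {V : Type} [Fintype V] [DecidableEq V] (G : SimpleGraph V) [DecidableRel G.Adj]
    (m D Δ K s p0 : ℕ) (hD : 32 ≤ D)
    (hexp : ∀ X : Finset V, X.card ≤ m →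
      D * X.card ≤ (X.biUnion (fun v => G.neighborFinset v)).card)
    (hjoin : ∀ X Y : Finset V, m ≤ X.card → m ≤ Y.card → Disjoint X Y →
      ∃ x ∈ X, ∃ y ∈ Y, G.Adj x y)
    (hΔ : ∀ v, (G.neighborFinset v).card ≤ Δ)
    (hs : 100 * Fintype.card V ≤ s * p0) (hK : 5 * m * 32 ^ K ≤ D ^ K * p0)
    (hI : 100 * Fintype.card V * (3 ^ K * (s + 2) * (Δ + 1) ^ (4 * K + 2)) ≤ p0 ^ 2) :
    ∃ (p : ℕ) (P : Fin p → List V), p ≤ p0 ∧ Cov G P := by
  obtain ⟨p, P, hP⟩ := exists_opt G
  by_cases hpp : p ≤ p0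
  · exact ⟨p, P, hpp, hP.cov⟩
  exfalso
  push Not at hpp
  -- the path of a vertex
  have hj : ∀ v, ∃ i, v ∈ P i := by
    intro v
    have h1 : v ∈ (univ : Finset V).val := Finset.mem_univ v
    rw [← hP.cov.sum, Multiset.mem_sum] at h1
    obtain ⟨i, _, hi⟩ := h1
    exact ⟨i, by simpa using hi⟩
  choose j hj using hj
  obtain ⟨R, Nb, r1, r2, r3, r4, r5, r6, r7, r8⟩ := bulk_det G P hP Δ K s hΔ j hj
  set Sh : Finset (Fin p) := univ.filter (fun i => (P i).length ≤ s) with hSh
  -- few long paths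
  have hlong : 100 * (univ \ Sh).card ≤ p := by
    have h1 : (univ \ Sh).card * (s + 1) ≤ Fintype.card V := by
      have h2 : ∑ i, (P i).length = Fintype.card V := by
        have h3 := congrArg Multiset.card hP.cov.sum
        rw [Finset.card_val, Finset.card_univ, Multiset.card_sum] at h3
        simpa using h3
      rw [← h2]
      calc (univ \ Sh).card * (s + 1) = ∑ _i ∈ univ \ Sh, (s + 1) := by
            rw [Finset.sum_const, smul_eq_mul]
        _ ≤ ∑ i ∈ univ \ Sh, (P i).length := by
            refine Finset.sum_le_sum fun i hi => ?_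
            rw [Finset.mem_sdiff, hSh, Finset.mem_filter] at hi
            have := hi.2
            simp only [Finset.mem_univ, true_and, not_le] at this
            exact this
        _ ≤ ∑ i, (P i).length := Finset.sum_le_sum_of_subset (Finset.subset_univ _)
    rcases Nat.eq_zero_or_pos s with hs0 | hs0
    · subst hs0
      have : Fintype.card V = 0 := by omega
      rw [this] at h1
      have : (univ \ Sh).card = 0 := by omega
      omega
    · have h3 : 100 * (univ \ Sh).card * s ≤ p0 * s := by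
        calc 100 * (univ \ Sh).card * s ≤ 100 * ((univ \ Sh).card * (s + 1)) := by
              rw [mul_assoc]
              exact Nat.mul_le_mul_left _ (Nat.mul_le_mul_left _ (Nat.le_succ s))
          _ ≤ 100 * Fintype.card V := Nat.mul_le_mul_left _ h1
          _ ≤ p0 * s := by rw [mul_comm p0 s]; exact hs
      exact (Nat.le_of_mul_le_mul_right h3 hs0).trans hpp.le
  obtain ⟨A, hA1, hA2⟩ := bulk_prob G j R Nb Sh m D K (3 ^ K * (s + 2) * (Δ + 1) ^ (4 * K + 2)) hexp
    r1 r2 (by
      intro A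
      refine le_trans (Finset.card_le_card ?_) (r4 A)
      intro i hi
      rw [Finset.mem_inter, hSh, Finset.mem_filter] at hi
      rw [Finset.mem_filter]
      exact ⟨hi.1, hi.2.2⟩)
    (fun k _ A => (r5 k A).trans (Nat.le_add_right _ _)) r6 r7 hD
    (by rw [Fintype.card_fin]; exact hlong)
    (by rw [Fintype.card_fin]; exact hI.trans (Nat.pow_le_pow_left hpp.le 2))
    (by rw [Fintype.card_fin]; exact hK.trans (Nat.mul_le_mul_left _ hpp.le))
  obtain ⟨x, hx, y, hy, hxy⟩ := hjoin _ _ hA1 hA2 (by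
    rw [Finset.disjoint_left]
    intro v hv hv'
    have h1 := r3 K A v hv
    have h2 := r3 K Aᶜ v hv'
    rw [Finset.mem_compl] at h2
    exact h2 h1)
  exact r8 K K A Aᶜ disjoint_compl_right x hx y hy hxy

/-- **BULK LEMMA inside a set `R` of vertices** -/
theorem bulk_set {V : Type} [Fintype V] [DecidableEq V] (G : SimpleGraph V) [DecidableRel G.Adj]
    (R : Finset V) (m D Δ K s p0 : ℕ) (hD : 32 ≤ D)
    (hexp : ∀ X ⊆ R, X.card ≤ m →
      D * X.card ≤ ((X.biUnion (fun v => G.neighborFinset v)) ∩ R).card)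
    (hjoin : ∀ X ⊆ R, ∀ Y ⊆ R, m ≤ X.card → m ≤ Y.card → Disjoint X Y →
      ∃ x ∈ X, ∃ y ∈ Y, G.Adj x y)
    (hΔ : ∀ v ∈ R, (G.neighborFinset v).card ≤ Δ)
    (hs : 100 * R.card ≤ s * p0) (hK : 5 * m * 32 ^ K ≤ D ^ K * p0)
    (hI : 100 * R.card * (3 ^ K * (s + 2) * (Δ + 1) ^ (4 * K + 2)) ≤ p0 ^ 2) :
    ∃ (p : ℕ) (P : Fin p → List V), p ≤ p0 ∧ (∀ i, P i ≠ []) ∧
      (∀ i, (P i).IsChain G.Adj) ∧ ∑ i, ((P i : List V) : Multiset V) = R.val := by
  classical
  have im : ∀ X : Finset R, (X.map ⟨Subtype.val, Subtype.val_injective⟩).card = X.card :=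
    fun X => Finset.card_map _
  have imR : ∀ X : Finset R, X.map ⟨Subtype.val, Subtype.val_injective⟩ ⊆ R := by
    intro X x hx
    rw [Finset.mem_map] at hx
    obtain ⟨y, _, rfl⟩ := hx
    exact y.2
  have hcR : Fintype.card R = R.card := Fintype.card_coe R
  obtain ⟨p, P, hp, hP⟩ := bulk (G.comap (Subtype.val : R → V)) m D Δ K s p0 hD (by
      intro X hX
      have h1 := hexp _ (imR X) (by rw [im]; exact hX)
      rw [im] at h1
      refine h1.trans ?_
      have h2 : ((X.map ⟨Subtype.val, Subtype.val_injective⟩).biUnion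
          (fun v => G.neighborFinset v)) ∩ R ⊆
          (X.biUnion (fun v => (G.comap (Subtype.val : R → V)).neighborFinset v)).map
            ⟨Subtype.val, Subtype.val_injective⟩ := by
        intro y hy
        rw [Finset.mem_inter, Finset.mem_biUnion] at hy
        obtain ⟨⟨x, hx, hxy⟩, hyR⟩ := hy
        rw [Finset.mem_map] at hx
        obtain ⟨x', hx', rfl⟩ := hx
        rw [SimpleGraph.mem_neighborFinset] at hxy
        rw [Finset.mem_map]
        refine ⟨⟨y, hyR⟩, ?_, rfl⟩
        rw [Finset.mem_biUnion]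
        refine ⟨x', hx', ?_⟩
        rw [SimpleGraph.mem_neighborFinset]
        exact hxy
      refine (Finset.card_le_card h2).trans ?_
      rw [im])
    (by
      intro X Y hX hY hXY
      obtain ⟨x, hx, y, hy, hxy⟩ := hjoin _ (imR X) _ (imR Y) (by rw [im]; exact hX)
        (by rw [im]; exact hY) (by
          rw [Finset.disjoint_map]; exact hXY)
      rw [Finset.mem_map] at hx hy
      obtain ⟨x', hx', rfl⟩ := hx
      obtain ⟨y', hy', rfl⟩ := hy
      exact ⟨x', hx', y', hy', hxy⟩)
    (by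
      intro v
      refine le_trans ?_ (hΔ v.1 v.2)
      rw [← im]
      refine Finset.card_le_card ?_
      intro y hy
      rw [Finset.mem_map] at hy
      obtain ⟨y', hy', rfl⟩ := hy
      rw [SimpleGraph.mem_neighborFinset] at hy' ⊢
      exact hy')
    (by rw [hcR]; exact hs) hK (by rw [hcR]; exact hI)
  refine ⟨p, fun i => (P i).map Subtype.val, hp, ?_, ?_, ?_⟩
  · intro i h
    rw [List.map_eq_nil_iff] at h
    exact hP.ne i h
  · intro i
    rw [List.isChain_map]
    exact hP.chain i
  · have h1 := map_sum (Multiset.mapAddMonoidHom (Subtype.val : R → V))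
      (fun i => ((P i : List R) : Multiset R)) univ
    rw [hP.sum] at h1
    have h2 : (Multiset.mapAddMonoidHom (Subtype.val : R → V)) (univ : Finset R).val = R.val := by
      have h3 : ((univ : Finset R).map ⟨Subtype.val, Subtype.val_injective⟩).val = R.val := by
        congr 1
        ext x
        rw [Finset.mem_map]
        constructor
        · rintro ⟨y, _, rfl⟩
          exact y.2
        · intro hx
          exact ⟨⟨x, hx⟩, Finset.mem_univ _, rfl⟩
      rw [← h3, Finset.map_val]
      rfl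
    rw [← h2, h1]
    rfl

end Pool.Agent.Bulk
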