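import Pool.Agent.HDL.Cheb

/-!
MP_134267_co, low degree range, BULK LEMMA, probabilistic half (helper6): random two-colouring of
the paths, one-coordinate monotonicity and Chebyshev for local events (helper14).
-/

set_option autoImplicit false

namespace Pool.Agent.Bulk

open Finset Pool.Agent.HDL Pool.Agent.Helper14.Sq

section prob

variable {V ι : Type} [Fintype V] [DecidableEq V] [Fintype ι] [DecidableEq ι]

/-- the red indices of a colouring -/
def red (c : ι → Bool) : Finset ι := univ.filter (fun i => c i = true)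

theorem mem_red (c : ι → Bool) (i : ι) : i ∈ red c ↔ c i = true := by
  simp [red]

theorem red_mono (c : ι → Bool) (i : ι) : red c ⊆ red (Function.update c i true) := by
  intro x hx
  rw [mem_red] at hx ⊢
  by_cases h : x = i
  · subst h; simp
  · rw [Function.update_of_ne h]; exact hx

theorem red_compl (c : ι → Bool) : (red c)ᶜ = red (fun i => !(c i)) := by
  ext i
  rw [Finset.mem_compl, mem_red, mem_red]
  cases c i <;> simp

/-- the average of `|R k A|` times the number of colourings -/
theorem bp_swap (S : (ι → Bool) → Finset V) :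
    ∑ c, ((S c).card : ℝ) = ∑ v, ((univ.filter (fun c => v ∈ S c)).card : ℝ) := by
  have h1 : ∀ c, ((S c).card : ℝ) = ∑ v, (if v ∈ S c then (1 : ℝ) else 0) := by
    intro c
    rw [Finset.sum_ite_mem, Finset.univ_inter, Finset.sum_const, nsmul_eq_mul, mul_one]
  have h2 : ∀ v, ((univ.filter (fun c => v ∈ S c)).card : ℝ)
      = ∑ c, (if v ∈ S c then (1 : ℝ) else 0) := by
    intro v
    rw [← Finset.sum_filter, Finset.sum_const, nsmul_eq_mul, mul_one]
  simp only [h1, h2]
  exact Finset.sum_comm

variable (G : SimpleGraph V) [DecidableRel G.Adj]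

/-- neighbourhood of a set -/
abbrev nbrs (X : Finset V) : Finset V := X.biUnion (fun v => G.neighborFinset v)

theorem nbrs_mono {X Y : Finset V} (h : X ⊆ Y) : nbrs G X ⊆ nbrs G Y :=
  Finset.biUnion_subset_biUnion_of_subset_left _ h

/-- one half of the neighbours are on red paths, on average -/
theorem bp_half (j : V → ι) (S : Finset ι → Finset V) (hmono : ∀ A A', A ⊆ A' → S A ⊆ S A') :
    ∑ c : ι → Bool, ((nbrs G (S (red c))).card : ℝ) ≤
      2 * ∑ c : ι → Bool, (((nbrs G (S (red c))).filter (fun w => j w ∈ red c)).card : ℝ) := by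
  rw [bp_swap (fun c => nbrs G (S (red c))),
    bp_swap (fun c => (nbrs G (S (red c))).filter (fun w => j w ∈ red c)), Finset.mul_sum]
  refine Finset.sum_le_sum fun w _ => ?_
  have h1 := half_of_mono (univ.filter (fun c : ι → Bool => w ∈ nbrs G (S (red c)))) (j w) (by
    intro c hc
    rw [Finset.mem_filter] at hc ⊢
    exact ⟨Finset.mem_univ _, nbrs_mono G (hmono _ _ (red_mono c (j w))) hc.2⟩)
  have h2 : (univ.filter (fun c : ι → Bool => w ∈ nbrs G (S (red c)))).filter
      (fun c => c (j w) = true) = univ.filter (fun c : ι → Bool =>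
        w ∈ (nbrs G (S (red c))).filter (fun w => j w ∈ red c)) := by
    ext c
    simp only [Finset.mem_filter, Finset.mem_univ, true_and, mem_red]
  rw [h2] at h1
  exact_mod_cast h1

/-- expansion, truncated -/
theorem bp_exp (m D : ℕ) (hexp : ∀ X : Finset V, X.card ≤ m → D * X.card ≤ (nbrs G X).card)
    (X : Finset V) (x : ℝ) (h1 : x ≤ X.card) (h2 : x ≤ m) :
    (D : ℝ) * x ≤ (nbrs G X).card := by
  rcases Nat.le_total X.card m with h | h
  · have h3 : ((D * X.card : ℕ) : ℝ) ≤ (nbrs G X).card := by exact_mod_cast hexp X h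
    refine le_trans ?_ h3
    rw [Nat.cast_mul]
    exact mul_le_mul_of_nonneg_left h1 (Nat.cast_nonneg _)
  · obtain ⟨Y, hY, hYc⟩ := Finset.exists_subset_card_eq h
    have h3 : ((D * Y.card : ℕ) : ℝ) ≤ (nbrs G Y).card := by exact_mod_cast hexp Y hYc.le
    have h4 : ((nbrs G Y).card : ℝ) ≤ (nbrs G X).card := by
      exact_mod_cast Finset.card_le_card (nbrs_mono G hY)
    refine le_trans ?_ (h3.trans h4)
    rw [Nat.cast_mul, hYc]
    exact mul_le_mul_of_nonneg_left h2 (Nat.cast_nonneg _)

end prob

/-- **the probabilistic half of the bulk lemma** -/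
theorem bulk_prob {V ι : Type} [Fintype V] [DecidableEq V] [Fintype ι] [DecidableEq ι]
    (G : SimpleGraph V) [DecidableRel G.Adj] (j : V → ι) (R : ℕ → Finset ι → Finset V)
    (Nb : V → Finset ι) (Sh : Finset ι) (m D K I : ℕ)
    (hexp : ∀ X : Finset V, X.card ≤ m →
      D * X.card ≤ (X.biUnion (fun v => G.neighborFinset v)).card)
    (hmono : ∀ k A A', A ⊆ A' → R k A ⊆ R k A') (hk : ∀ k A, R k A ⊆ R (k + 1) A)
    (hbase : ∀ A : Finset ι, (A ∩ Sh).card ≤ (R 0 A).card)
    (hgrow : ∀ k < K, ∀ A, (((R k A).biUnion (fun v => G.neighborFinset v)).filter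
        (fun w => j w ∈ A)).card ≤ 3 * (R (k + 1) A).card + 2 * (univ \ Sh).card)
    (hloc : ∀ k ≤ K, ∀ A v, v ∈ R k A → v ∈ R k (A ∩ Nb v))
    (hI : ∀ v, (univ.filter (fun v' => ¬ Disjoint (Nb v) (Nb v'))).card ≤ I)
    (hD : 32 ≤ D) (hSh : 100 * (univ \ Sh).card ≤ Fintype.card ι)
    (hn : 100 * Fintype.card V * I ≤ Fintype.card ι ^ 2)
    (hK : 5 * m * 32 ^ K ≤ D ^ K * Fintype.card ι) :
    ∃ A : Finset ι, m ≤ (R K A).card ∧ m ≤ (R K Aᶜ).card := by
  rcases Nat.eq_zero_or_pos m with hm0 | hm0
  · exact ⟨∅, by omega, by omega⟩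
  set N : ℝ := (Fintype.card (ι → Bool) : ℝ) with hN
  have hNpos : 0 < N := by rw [hN]; exact_mod_cast Fintype.card_pos
  set p : ℝ := (Fintype.card ι : ℝ) with hp
  have hp1 : 1 ≤ p := by
    have h0 : 0 < Fintype.card ι := by
      rcases Nat.eq_zero_or_pos (Fintype.card ι) with h0 | h0
      · rw [h0, mul_zero] at hK
        have : 0 < 5 * m * 32 ^ K := by positivity
        omega
      · exact h0
    rw [hp]; exact_mod_cast h0
  set q : ℝ := ((univ \ Sh).card : ℝ) with hq
  have hq0 : 0 ≤ q := Nat.cast_nonneg _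
  have hqp : 100 * q ≤ p := by rw [hq, hp]; exact_mod_cast hSh
  obtain ⟨μ, hμ⟩ : ∃ μ : ℕ → ℝ, ∀ k, μ k = (∑ c : ι → Bool, ((R k (red c)).card : ℝ)) / N :=
    ⟨fun k => _, fun _ => rfl⟩
  have hμN : ∀ k, μ k * N = ∑ c : ι → Bool, ((R k (red c)).card : ℝ) := by
    intro k; rw [hμ, div_mul_cancel₀ _ hNpos.ne']
  -- Chebyshev
  have hcheb : ∀ k ≤ K, 0.495 * p ≤ μ k →
      4 * ((univ.filter (fun c : ι → Bool => ((R k (red c)).card : ℝ) ≤ μ k / 2)).card : ℝ)
        ≤ N := by
    intro k hkK hpk
    have h1 := cheb_local (P := ι) (V := V) (A := Bool)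
      (fun v => univ.filter (fun c : ι → Bool => v ∈ R k (red c))) Nb (by
        intro v c c' hcc
        rw [Finset.mem_filter, Finset.mem_filter]
        have key : ∀ c c' : ι → Bool, (∀ i ∈ Nb v, c i = c' i) → v ∈ R k (red c) →
            v ∈ R k (red c') := by
          intro c c' hcc hv
          refine hmono k _ _ ?_ (hloc k hkK _ v hv)
          intro i hi
          rw [Finset.mem_inter, mem_red] at hi
          rw [mem_red, ← hcc i hi.2]
          exact hi.1
        exact ⟨fun h => ⟨Finset.mem_univ _, key c c' hcc h.2⟩,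
          fun h => ⟨Finset.mem_univ _, key c' c (fun i hi => (hcc i hi).symm) h.2⟩⟩)
      ((Fintype.card V : ℝ) * I) (by
        have h2 : (univ.filter (fun p : V × V => ¬ Disjoint (Nb p.1) (Nb p.2))).card
            ≤ Fintype.card V * I := by
          rw [Finset.card_filter, Fintype.sum_prod_type]
          calc ∑ x, ∑ y, (if ¬ Disjoint (Nb x) (Nb y) then 1 else 0)
              ≤ ∑ _x : V, I := by
                refine Finset.sum_le_sum fun x _ => ?_
                rw [← Finset.card_filter]
                exact hI x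
            _ = Fintype.card V * I := by rw [Finset.sum_const, Finset.card_univ, smul_eq_mul]
        exact_mod_cast h2) (μ k) (by
        rw [hμN k, bp_swap (fun c => R k (red c))])
    have h3 : ∀ c : ι → Bool, (univ.filter (fun v => c ∈ (univ.filter
        (fun c : ι → Bool => v ∈ R k (red c))))).card = (R k (red c)).card := by
      intro c
      congr 1
      ext v
      simp
    simp only [h3] at h1
    set b : ℝ := ((univ.filter (fun c : ι → Bool =>
      ((R k (red c)).card : ℝ) ≤ μ k / 2)).card : ℝ) with hb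
    have hb0 : 0 ≤ b := Nat.cast_nonneg _
    have hn' : 100 * ((Fintype.card V : ℝ) * I) ≤ p ^ 2 := by
      have : ((100 * Fintype.card V * I : ℕ) : ℝ) ≤ ((Fintype.card ι ^ 2 : ℕ) : ℝ) := by
        exact_mod_cast hn
      push_cast at this
      rw [hp]; linarith
    have hμp : 0.24 * p ^ 2 ≤ μ k ^ 2 := by nlinarith
    -- b μ² ≤ 4 n I N ≤ p² N / 25 ≤ μ² N / 6
    have h4 : b * μ k ^ 2 ≤ (μ k ^ 2 / 6) * N := by
      refine h1.trans ?_
      refine mul_le_mul_of_nonneg_right ?_ hNpos.le
      nlinarith
    have h5 : 0 < μ k ^ 2 := by nlinarith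
    have h6 : b ≤ N / 6 := by
      have : b * μ k ^ 2 ≤ (N / 6) * μ k ^ 2 := by linarith
      exact le_of_mul_le_mul_right this h5
    linarith
  -- growth
  have hgr : ∀ k < K, 0.495 * p ≤ μ k → μ k < 2 * m → (D : ℝ) / 32 * μ k ≤ μ (k + 1) := by
    intro k hkK hpk hk2
    have h1 := hcheb k hkK.le hpk
    have h2 := bp_half G j (R k) (hmono k)
    have h3 : ∑ c : ι → Bool, (((nbrs G (R k (red c))).filter (fun w => j w ∈ red c)).card : ℝ)
        ≤ 3 * (μ (k + 1) * N) + 2 * q * N := by
      rw [hμN, Finset.mul_sum]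
      have e1 : 2 * q * N = ∑ _c : ι → Bool, 2 * q := by
        rw [Finset.sum_const, Finset.card_univ, nsmul_eq_mul]; ring
      rw [e1, ← Finset.sum_add_distrib]
      refine Finset.sum_le_sum fun c _ => ?_
      have := hgrow k hkK (red c)
      rw [hq]
      exact_mod_cast this
    have h4 : ∑ c ∈ univ.filter (fun c : ι → Bool => ¬ ((R k (red c)).card : ℝ) ≤ μ k / 2),
        (D : ℝ) * (μ k / 2) ≤ ∑ c : ι → Bool, ((nbrs G (R k (red c))).card : ℝ) := by
      refine (Finset.sum_le_sum ?_).trans (Finset.sum_le_sum_of_subset_of_nonneg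
        (Finset.filter_subset _ _) (fun c _ _ => Nat.cast_nonneg _))
      intro c hc
      rw [Finset.mem_filter, not_le] at hc
      exact bp_exp G m D hexp _ _ hc.2.le (by linarith)
    rw [Finset.sum_const, nsmul_eq_mul] at h4
    have h5 : ((univ.filter (fun c : ι → Bool => ((R k (red c)).card : ℝ) ≤ μ k / 2)).card : ℝ)
        + ((univ.filter (fun c : ι → Bool => ¬ ((R k (red c)).card : ℝ) ≤ μ k / 2)).card : ℝ)
        = N := by
      have := Finset.card_filter_add_card_filter_not (s := (univ : Finset (ι → Bool)))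
        (fun c => ((R k (red c)).card : ℝ) ≤ μ k / 2)
      rw [hN, ← Finset.card_univ]
      exact_mod_cast this
    have hDpos : (32 : ℝ) ≤ D := by exact_mod_cast hD
    have hμ0 : 0 ≤ μ k := by nlinarith
    have h6 : (3 / 4 * N) * ((D : ℝ) * (μ k / 2)) ≤ 2 * (3 * (μ (k + 1) * N) + 2 * q * N) := by
      refine le_trans ?_ (h4.trans (h2.trans (mul_le_mul_of_nonneg_left h3 (by norm_num))))
      refine mul_le_mul_of_nonneg_right (by linarith) (by positivity)
    have h7 : N * (3 / 8 * (D * μ k)) ≤ N * (6 * μ (k + 1) + 4 * q) := by linarith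
    have h8 : 3 / 8 * (D * μ k) ≤ 6 * μ (k + 1) + 4 * q := le_of_mul_le_mul_left h7 hNpos
    have h9 : 32 * μ k ≤ D * μ k := mul_le_mul_of_nonneg_right hDpos hμ0
    linarith
  -- the base
  have hbase' : 0.495 * p ≤ μ 0 := by
    have h1 : (Sh.card : ℝ) * N ≤ 2 * (μ 0 * N) := by
      rw [hμN, Finset.mul_sum]
      calc (Sh.card : ℝ) * N = ∑ i ∈ Sh, N := by rw [Finset.sum_const, nsmul_eq_mul]
        _ ≤ ∑ i ∈ Sh, 2 * ((univ.filter (fun c : ι → Bool => c i = true)).card : ℝ) := by
            refine Finset.sum_le_sum fun i _ => ?_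
            have := half_of_mono (univ : Finset (ι → Bool)) i (fun a _ => Finset.mem_univ _)
            rw [hN, ← Finset.card_univ]
            exact_mod_cast this
        _ = ∑ c : ι → Bool, 2 * ((red c ∩ Sh).card : ℝ) := by
            rw [← Finset.mul_sum, ← Finset.mul_sum]
            congr 1
            have e1 : ∀ i ∈ Sh, ((univ.filter (fun c : ι → Bool => c i = true)).card : ℝ)
                = ∑ c : ι → Bool, (if i ∈ red c then (1 : ℝ) else 0) := by
              intro i _
              rw [← Finset.sum_filter, Finset.sum_const, nsmul_eq_mul, mul_one]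
              simp only [mem_red]
            rw [Finset.sum_congr rfl e1, Finset.sum_comm]
            refine Finset.sum_congr rfl fun c _ => ?_
            rw [← Finset.sum_filter, Finset.sum_const, nsmul_eq_mul, mul_one,
              Finset.filter_mem_eq_inter, Finset.inter_comm]
        _ ≤ ∑ c : ι → Bool, 2 * ((R 0 (red c)).card : ℝ) := by
            refine Finset.sum_le_sum fun c _ => ?_
            have := hbase (red c)
            have h2 : ((red c ∩ Sh).card : ℝ) ≤ (R 0 (red c)).card := by exact_mod_cast this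
            linarith
    have h2 : (Sh.card : ℝ) + q = p := by
      rw [hq, hp]
      have := Finset.card_sdiff_add_card_eq_card (Finset.subset_univ Sh)
      rw [Finset.card_univ] at this
      have h3 : (((univ \ Sh).card + Sh.card : ℕ) : ℝ) = ((Fintype.card ι : ℕ) : ℝ) := by
        exact_mod_cast this
      push_cast at h3
      linarith
    have h3 : N * (Sh.card : ℝ) ≤ N * (2 * μ 0) := by linarith
    have h4 : (Sh.card : ℝ) ≤ 2 * μ 0 := le_of_mul_le_mul_left h3 hNpos
    linarith
  -- some level is large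
  have hDr : (1 : ℝ) ≤ (D : ℝ) / 32 := by
    rw [le_div_iff₀ (by norm_num)]
    have : (32 : ℝ) ≤ D := by exact_mod_cast hD
    linarith
  have hlarge : ∃ k ≤ K, 0.495 * p ≤ μ k ∧ 2 * (m : ℝ) ≤ μ k := by
    by_contra hcon
    push Not at hcon
    have hind : ∀ k ≤ K, ((D : ℝ) / 32) ^ k * (0.495 * p) ≤ μ k := by
      intro k
      induction k with
      | zero => intro _; rw [pow_zero, one_mul]; exact hbase'
      | succ k ih =>
        intro hkK
        have h1 := ih (by omega)
        have h2 : (1 : ℝ) ≤ ((D : ℝ) / 32) ^ k := one_le_pow₀ hDr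
        have h3 : 0.495 * p ≤ μ k := by
          refine le_trans ?_ h1
          have : 0 ≤ 0.495 * p := by linarith
          nlinarith
        have h4 := hgr k (by omega) h3 (hcon k (by omega) h3)
        refine le_trans ?_ h4
        rw [pow_succ, mul_comm (((D : ℝ) / 32) ^ k), mul_assoc]
        exact mul_le_mul_of_nonneg_left h1 (by linarith)
    have h1 := hind K le_rfl
    have h2 : (1 : ℝ) ≤ ((D : ℝ) / 32) ^ K := one_le_pow₀ hDr
    have h3 : 0.495 * p ≤ μ K := by
      refine le_trans ?_ h1
      have : 0 ≤ 0.495 * p := by linarith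
      nlinarith
    have h4 := hcon K le_rfl h3
    have h5 : 5 * (m : ℝ) ≤ ((D : ℝ) / 32) ^ K * p := by
      rw [div_pow, div_mul_eq_mul_div, le_div_iff₀ (by positivity)]
      rw [hp]
      exact_mod_cast hK
    have hmpos : (0 : ℝ) < m := by exact_mod_cast hm0
    nlinarith
  obtain ⟨k, hkK, hk1, hk2⟩ := hlarge
  have hRk : ∀ A, R k A ⊆ R K A := by
    intro A
    obtain ⟨e, rfl⟩ : ∃ e, K = k + e := ⟨K - k, by omega⟩
    clear hkK hK hgrow hloc hgr hcheb
    induction e with
    | zero => exact Finset.Subset.refl _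
    | succ e ih => exact ih.trans (hk (k + e) A)
  -- both colours
  have hc1 := hcheb k hkK hk1
  set B := univ.filter (fun c : ι → Bool => ((R k (red c)).card : ℝ) ≤ μ k / 2) with hB
  obtain ⟨c, hc, hc'⟩ : ∃ c : ι → Bool, c ∉ B ∧ (fun i => !(c i)) ∉ B := by
    by_contra hcon
    push Not at hcon
    have hsub : (univ : Finset (ι → Bool)) ⊆ B ∪ B.image (fun c i => !(c i)) := by
      intro c _
      rw [Finset.mem_union]
      by_cases h : c ∈ B
      · exact Or.inl h
      · right
        rw [Finset.mem_image]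
        refine ⟨_, hcon c h, ?_⟩
        funext i
        simp
    have h1 := Finset.card_le_card hsub
    have h2 : (B ∪ B.image (fun c i => !(c i))).card ≤ B.card + B.card :=
      (Finset.card_union_le _ _).trans (Nat.add_le_add_left Finset.card_image_le _)
    have h3 : N ≤ 2 * (B.card : ℝ) := by
      rw [hN, ← Finset.card_univ]
      have : (univ : Finset (ι → Bool)).card ≤ 2 * B.card := by omega
      exact_mod_cast this
    linarith
  have hbig : ∀ c : ι → Bool, c ∉ B → m ≤ (R K (red c)).card := by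
    intro c hc
    rw [hB, Finset.mem_filter, not_and, not_le] at hc
    have h1 := hc (Finset.mem_univ _)
    have h2 : (m : ℝ) < (R k (red c)).card := by linarith
    have h3 : m < (R k (red c)).card := by exact_mod_cast h2
    exact h3.le.trans (Finset.card_le_card (hRk _))
  refine ⟨red c, hbig c hc, ?_⟩
  rw [red_compl]
  exact hbig _ hc'

end Pool.Agent.Bulk
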